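import Pool.Agent.TH96.NC.Even2

set_option autoImplicit false

namespace Pool.Agent.TH96.NC

open Filter Topology

/-- the modulus as a natural number -/
def LN : ℕ := 210 * 1369826131969

/-- the parameters `11 ^ (φ(L) (t + 1))` -/
noncomputable def ex (t : ℕ) : ℕ := Nat.totient LN * (t + 1)

theorem tot_pos : 0 < Nat.totient LN := Nat.totient_pos.mpr (by norm_num [LN])

theorem cop11 : Nat.Coprime 11 LN := by unfold LN; norm_num

theorem ex_mod (t : ℕ) : ∃ z : ℤ, (((11 ^ ex t : ℕ)) : ℤ) = 1 + cL * z := by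
  have h1 : 11 ^ (Nat.totient LN) ≡ 1 [MOD LN] :=
    Nat.ModEq.pow_totient cop11
  have h2 : 11 ^ ex t ≡ 1 [MOD LN] := by
    unfold ex
    rw [pow_mul]
    simpa using h1.pow (t + 1)
  have h3 := (Nat.modEq_iff_dvd.mp h2.symm)
  obtain ⟨z, hz⟩ := h3
  refine ⟨z, ?_⟩
  have e : ((LN : ℕ) : ℤ) = cL := by
    unfold LN cL cA
    norm_num
  rw [e] at hz
  rw [← hz]
  push_cast
  ring

theorem ex_large (t : ℕ) : t < 11 ^ ex t := by
  have h1 : t < ex t := by
    unfold ex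
    have := tot_pos
    nlinarith
  exact h1.trans (Nat.lt_pow_self (by norm_num))

theorem ex_inj : Function.Injective (fun t => 11 ^ ex t) := by
  intro s t h
  have h1 : ex s = ex t := Nat.pow_right_injective (by norm_num : 2 ≤ 11) h
  unfold ex at h1
  have h2 := Nat.eq_of_mul_eq_mul_left tot_pos h1
  omega

/-- the tuple with parameter `t` -/
noncomputable def tup (n t : ℕ) : Fin n → ℤ := fun i => ent (((11 ^ ex t : ℕ)) : ℤ) i

theorem tup_large {t : ℕ} (ht : 48 ≤ t) : 48 < 11 ^ ex t := lt_of_le_of_lt ht (ex_large t)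

theorem adm_tup {n t : ℕ} (hn : 6 ≤ n) (he : Even n) (ht : 48 ≤ t) : Adm (tup n t) := by
  obtain ⟨z, hz⟩ := ex_mod t
  exact adm_ent hz (by exact_mod_cast tup_large ht) hn he

theorem rad_tup_le {n t : ℕ} (ht : 48 ≤ t) :
    rad (tup n t) ≤ 11 * 7495 * 7 * 6337 * 1369826131969 * (11 ^ ex t) ^ 5 :=
  rad_le (tup_large ht) rfl n

theorem rad_pos {n : ℕ} (x : Fin n → ℤ) : 1 ≤ rad x := by
  unfold rad
  exact Finset.one_le_prod' fun p hp => (Nat.prime_of_mem_primeFactors hp).one_le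

/-- the constant in the bound of the radical -/
noncomputable def cK : ℝ := 11 * 7495 * 7 * 6337 * 1369826131969

theorem cK_pos : 0 < cK := by unfold cK; norm_num

theorem castK (X : ℕ) : ((11 * 7495 * 7 * 6337 * 1369826131969 * X ^ 5 : ℕ) : ℝ) =
    cK * (X : ℝ) ^ 5 := by
  unfold cK
  push_cast
  ring

theorem pow7_inj (a b : ℕ) (h : (a : ℤ) ^ 7 = (b : ℤ) ^ 7) : a = b := by
  have h2 : a ^ 7 = b ^ 7 := by exact_mod_cast h
  exact Nat.pow_left_injective (by norm_num) h2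

theorem rad_tup_le' {n t : ℕ} (ht : 48 ≤ t) :
    (rad (tup n t) : ℝ) ≤ cK * ((11 ^ ex t : ℕ) : ℝ) ^ 5 := by
  have h := rad_tup_le (n := n) ht
  have h2 : (rad (tup n t) : ℝ) ≤
      ((11 * 7495 * 7 * 6337 * 1369826131969 * (11 ^ ex t) ^ 5 : ℕ) : ℝ) := Nat.cast_le.mpr h
  refine h2.trans (le_of_eq ?_)
  exact castK _

/-- for every `q < 7/5` and `K`, the radical to the power `q`, times `K`, is smaller than the first
entry for all large `t` -/
theorem eventually_lt {q : ℝ} (hq : q < 7 / 5) (K : ℝ) :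
    ∀ᶠ X : ℝ in atTop, ∀ r : ℝ, 1 ≤ r → r ≤ cK * X ^ 5 → K * r ^ q < X ^ 7 := by
  have hd : 0 < 7 - 5 * max q 0 := by
    have : max q 0 < 7 / 5 := max_lt hq (by norm_num)
    linarith
  have h1 : Tendsto (fun X : ℝ => X ^ (7 - 5 * max q 0)) atTop atTop :=
    tendsto_rpow_atTop hd
  filter_upwards [h1.eventually_gt_atTop (|K| * cK ^ (max q 0)), eventually_gt_atTop (0 : ℝ)]
    with X hX hX0 r hr1 hr2
  have h2 : r ^ q ≤ r ^ (max q 0) := Real.rpow_le_rpow_of_exponent_le hr1 (le_max_left _ _)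
  have h3 : r ^ (max q 0) ≤ (cK * X ^ 5) ^ (max q 0) :=
    Real.rpow_le_rpow (by linarith) hr2 (le_max_right _ _)
  have h4 : (cK * X ^ 5) ^ (max q 0) = cK ^ (max q 0) * X ^ (5 * max q 0) := by
    rw [Real.mul_rpow cK_pos.le (by positivity), ← Real.rpow_natCast, ← Real.rpow_mul hX0.le]
    norm_num
  have h5 : X ^ (7 - 5 * max q 0) * X ^ (5 * max q 0) = X ^ 7 := by
    rw [← Real.rpow_add hX0, ← Real.rpow_natCast]
    congr 1
    push_cast
    ring
  have h6 : 0 < X ^ (5 * max q 0) := Real.rpow_pos_of_pos hX0 _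
  have h7 : 0 ≤ r ^ q := Real.rpow_nonneg (by linarith) _
  calc K * r ^ q ≤ |K| * r ^ q := by gcongr; exact le_abs_self K
    _ ≤ |K| * (cK ^ (max q 0) * X ^ (5 * max q 0)) := by
        rw [← h4]
        exact mul_le_mul_of_nonneg_left (h2.trans h3) (abs_nonneg K)
    _ = |K| * cK ^ (max q 0) * X ^ (5 * max q 0) := by ring
    _ < X ^ (7 - 5 * max q 0) * X ^ (5 * max q 0) := by
        exact mul_lt_mul_of_pos_right hX h6
    _ = X ^ 7 := h5

theorem exists_t0 {q : ℝ} (hq : q < 7 / 5) (K : ℝ) (n : ℕ) (hn : 6 ≤ n) :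
    ∃ t₀ : ℕ, 48 ≤ t₀ ∧ ∀ t : ℕ, t₀ ≤ t →
      K * (rad (tup n t) : ℝ) ^ q < |((tup n t ⟨0, by omega⟩ : ℤ) : ℝ)| := by
  obtain ⟨B, hB⟩ := eventually_atTop.mp (eventually_lt hq K)
  refine ⟨max 48 ⌈B⌉₊, le_max_left _ _, fun t ht => ?_⟩
  have ht1 : 48 ≤ t := (le_max_left _ _).trans ht
  have h1 : B ≤ ((11 ^ ex t : ℕ) : ℝ) := by
    have h2 : ⌈B⌉₊ ≤ 11 ^ ex t := ((le_max_right _ _).trans ht).trans (ex_large t).le
    exact (Nat.le_ceil B).trans (by exact_mod_cast h2)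
  have h3 := hB _ h1 (rad (tup n t)) (by exact_mod_cast rad_pos _) (rad_tup_le' ht1)
  have h4 : ((tup n t ⟨0, by omega⟩ : ℤ) : ℝ) = ((11 ^ ex t : ℕ) : ℝ) ^ 7 := by
    unfold tup ent
    rw [Int.cast_pow, Int.cast_natCast]
  rw [h4, abs_of_nonneg (by positivity)]
  exact h3

theorem tup_inj (n : ℕ) (hn : 6 ≤ n) : Function.Injective (tup n) := by
  intro s t h
  have h1 := congrFun h ⟨0, by omega⟩
  unfold tup ent at h1
  exact ex_inj (pow7_inj _ _ h1)

end Pool.Agent.TH96.NC
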