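import Mathlib

set_option autoImplicit false

/-!
# The strong n-conjecture for even n: an identity of degree seven

`X^7 - (X-48)^7 - (7 m^2 + 7488)^3 + 7 (m^2 + 6336)^3 = 1369826131968`, `m = X - 24`.
-/

namespace Pool.Agent.TH96.NC

open Finset

/-- the constant of the identity plus one -/
def cA : ℤ := 1369826131969

/-- the modulus -/
def cL : ℤ := 210 * cA

/-- the entries of the tuples -/
def ent (X : ℤ) : ℕ → ℤ
  | 0 => X ^ 7
  | 1 => -(X - 48) ^ 7
  | 2 => -(7 * (X - 24) ^ 2 + 7488) ^ 3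
  | 3 => 7 * ((X - 24) ^ 2 + 6336) ^ 3
  | 4 => -cA
  | 5 => 1
  | (j + 6) => (-1) ^ j

theorem sum_ent (X : ℤ) (k : ℕ) : ∑ j ∈ range (6 + 2 * k), ent X j = 0 := by
  induction k with
  | zero =>
    simp only [mul_zero, add_zero, sum_range_succ, sum_range_zero, ent, cA]
    ring
  | succ k ih =>
    have h : 6 + 2 * (k + 1) = 6 + 2 * k + 1 + 1 := by ring
    rw [h, sum_range_succ, sum_range_succ, ih]
    have h1 : 6 + 2 * k = (2 * k) + 6 := by ring
    have h2 : 6 + 2 * k + 1 = (2 * k + 1) + 6 := by ring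
    rw [h2, h1]
    simp only [ent, pow_succ, pow_mul]
    norm_num

theorem cop_of {X c d w : ℤ} (h : IsCoprime c d) (hX : X = c + d * w) : IsCoprime X d := by
  rw [hX]; exact h.add_mul_left_left w

section

variable {X z : ℤ} (hz : X = 1 + cL * z)

include hz

theorem cX30 : IsCoprime X 30 :=
  cop_of (c := 1) (w := 7 * cA * z) isCoprime_one_left (by rw [hz, cL]; ring)

theorem cX7 : IsCoprime X 7 :=
  cop_of (c := 1) (w := 30 * cA * z) isCoprime_one_left (by rw [hz, cL]; ring)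

theorem cXA : IsCoprime X cA :=
  cop_of (c := 1) (w := 210 * z) isCoprime_one_left (by rw [hz, cL]; ring)

theorem cY30 : IsCoprime (X - 48) 30 :=
  cop_of (c := -47) (w := 7 * cA * z) (by norm_num) (by rw [hz, cL]; ring)

theorem cY7 : IsCoprime (X - 48) 7 :=
  cop_of (c := -47) (w := 30 * cA * z) (by norm_num) (by rw [hz, cL]; ring)

theorem cYA : IsCoprime (X - 48) cA :=
  cop_of (c := -47) (w := 210 * z) (by unfold cA; norm_num) (by rw [hz, cL]; ring)

theorem cPA : IsCoprime (7 * (X - 24) ^ 2 + 7488) cA :=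
  cop_of (c := 11191) (w := 210 * z * 7 * (X - 47)) (by unfold cA; norm_num)
    (by rw [hz, cL]; ring)

theorem cQA : IsCoprime ((X - 24) ^ 2 + 6336) cA :=
  cop_of (c := 6865) (w := 210 * z * (X - 47)) (by unfold cA; norm_num)
    (by rw [hz, cL]; ring)

omit hz in
theorem cP7 : IsCoprime (7 * (X - 24) ^ 2 + 7488) 7 :=
  cop_of (c := 5) (w := (X - 24) ^ 2 + 1069) (by norm_num) (by ring)

theorem cQ6 : IsCoprime ((X - 24) ^ 2 + 6336) 6 :=
  cop_of (c := 1) (w := 88 + 1056 + 35 * cA * z * (X - 47)) isCoprime_one_left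
    (by rw [hz, cL]; ring)

theorem cXY : IsCoprime X (X - 48) := by
  have h : IsCoprime X 48 :=
    ((cX30 hz).pow_right (n := 8)).of_isCoprime_of_dvd_right (by norm_num)
  have h2 : X - 48 = -48 + X * 1 := by ring
  rw [h2]
  exact (h.neg_right).add_mul_left_right 1

theorem cXP : IsCoprime X (7 * (X - 24) ^ 2 + 7488) := by
  have h : IsCoprime X 11520 :=
    ((cX30 hz).pow_right (n := 8)).of_isCoprime_of_dvd_right (by norm_num)
  have h2 : 7 * (X - 24) ^ 2 + 7488 = 11520 + X * (7 * X - 336) := by ring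
  rw [h2]
  exact h.add_mul_left_right _

theorem cXQ : IsCoprime X ((X - 24) ^ 2 + 6336) := by
  have h : IsCoprime X 6912 :=
    ((cX30 hz).pow_right (n := 8)).of_isCoprime_of_dvd_right (by norm_num)
  have h2 : (X - 24) ^ 2 + 6336 = 6912 + X * (X - 48) := by ring
  rw [h2]
  exact h.add_mul_left_right _

theorem cYP : IsCoprime (X - 48) (7 * (X - 24) ^ 2 + 7488) := by
  have h : IsCoprime (X - 48) 11520 :=
    ((cY30 hz).pow_right (n := 8)).of_isCoprime_of_dvd_right (by norm_num)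
  have h2 : 7 * (X - 24) ^ 2 + 7488 = 11520 + (X - 48) * (7 * (X - 48) + 336) := by ring
  rw [h2]
  exact h.add_mul_left_right _

theorem cYQ : IsCoprime (X - 48) ((X - 24) ^ 2 + 6336) := by
  have h : IsCoprime (X - 48) 6912 :=
    ((cY30 hz).pow_right (n := 8)).of_isCoprime_of_dvd_right (by norm_num)
  have h2 : (X - 24) ^ 2 + 6336 = 6912 + (X - 48) * X := by ring
  rw [h2]
  exact h.add_mul_left_right _

theorem cPQ : IsCoprime (7 * (X - 24) ^ 2 + 7488) ((X - 24) ^ 2 + 6336) := by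
  have h : IsCoprime ((X - 24) ^ 2 + 6336) 36864 :=
    ((cQ6 hz).pow_right (n := 12)).of_isCoprime_of_dvd_right (by norm_num)
  have h2 : 7 * (X - 24) ^ 2 + 7488 = -36864 + ((X - 24) ^ 2 + 6336) * 7 := by ring
  rw [h2]
  exact (h.neg_right.symm).add_mul_left_left 7

end

end Pool.Agent.TH96.NC
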