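import Pool.Agent.TH96.NC.Even

set_option autoImplicit false

namespace Pool.Agent.TH96.NC

open Finset

/-- an admissible tuple: non-zero pairwise coprime integers with sum zero -/
def Adm {n : ℕ} (x : Fin n → ℤ) : Prop :=
  (∀ i, x i ≠ 0) ∧ (∀ i j, i ≠ j → Int.gcd (x i) (x j) = 1) ∧ ∑ i, x i = 0

theorem ent_cop {X z : ℤ} (hz : X = 1 + cL * z) : ∀ i j : ℕ, i < j →
    IsCoprime (ent X i) (ent X j) := by
  intro i j hij
  have hA7 : IsCoprime (7 : ℤ) cA := by unfold cA; norm_num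
  rcases j with _ | _ | _ | _ | _ | _ | j
  · omega
  · obtain rfl : i = 0 := by omega
    simp only [ent]
    exact ((cXY hz).pow).neg_right
  · rcases i with _ | _ | i
    · simp only [ent]
      exact ((cXP hz).pow).neg_right
    · simp only [ent]
      exact (((cYP hz).pow).neg_right).neg_left
    · omega
  · rcases i with _ | _ | _ | i
    · simp only [ent]
      exact ((cX7 hz).pow_left).mul_right ((cXQ hz).pow)
    · simp only [ent]
      exact (((cY7 hz).pow_left).mul_right ((cYQ hz).pow)).neg_left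
    · simp only [ent]
      exact (((cP7 (X := X)).pow_left).mul_right ((cPQ hz).pow)).neg_left
    · omega
  · rcases i with _ | _ | _ | _ | i
    · simp only [ent]
      exact ((cXA hz).pow_left).neg_right
    · simp only [ent]
      exact (((cYA hz).pow_left).neg_right).neg_left
    · simp only [ent]
      exact (((cPA hz).pow_left).neg_right).neg_left
    · simp only [ent]
      exact (hA7.mul_left ((cQA hz).pow_left)).neg_right
    · omega
  · simp only [ent]
    exact isCoprime_one_right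
  · simp only [ent]
    have h : IsUnit ((-1 : ℤ) ^ j) := (isUnit_one.neg).pow j
    obtain ⟨u, hu⟩ := h
    rw [← hu]
    exact ⟨0, ((u⁻¹ : ℤˣ) : ℤ), by simp⟩

theorem ent_ne {X : ℤ} (hX : 48 < X) (i : ℕ) : ent X i ≠ 0 := by
  rcases i with _ | _ | _ | _ | _ | _ | i
  · simp only [ent]; positivity
  · simp only [ent, neg_ne_zero]
    have : 0 < X - 48 := by linarith
    positivity
  · simp only [ent, neg_ne_zero]
    positivity
  · simp only [ent]; positivity
  · simp only [ent, cA]; norm_num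
  · simp only [ent]; norm_num
  · simp only [ent]
    exact pow_ne_zero _ (by norm_num)

/-- every prime factor of an entry divides this number -/
def wit (X : ℕ) : ℕ :=
  11 * (X - 48) * (7 * (X - 24) ^ 2 + 7488) * 7 * ((X - 24) ^ 2 + 6336) * 1369826131969

theorem prime_dvd_wit {X : ℕ} (hX : 48 < X) {e : ℕ} (he : X = 11 ^ e) {p : ℕ} (hp : p.Prime)
    (i : ℕ) (h : (p : ℤ) ∣ ent (X : ℤ) i) : p ∣ wit X := by
  have hpI : Prime (p : ℤ) := Nat.prime_iff_prime_int.mp hp
  have e1 : ((X : ℤ) - 48) = ((X - 48 : ℕ) : ℤ) := by omega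
  have e2 : ((X : ℤ) - 24) = ((X - 24 : ℕ) : ℤ) := by omega
  have hw : ∀ a b c : ℕ, wit X = a * b * c → p ∣ b → p ∣ wit X := by
    intro a b c h1 h2
    rw [h1]
    exact Dvd.dvd.mul_right (Dvd.dvd.mul_left h2 a) c
  rcases i with _ | _ | _ | _ | _ | _ | i
  · simp only [ent] at h
    have h1 := hpI.dvd_of_dvd_pow h
    have h2 : p ∣ X := by exact_mod_cast h1
    rw [he] at h2
    have h3 := hp.dvd_of_dvd_pow h2
    exact hw 1 11 ((X - 48) * (7 * (X - 24) ^ 2 + 7488) * 7 * ((X - 24) ^ 2 + 6336) *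
      1369826131969) (by unfold wit; ring) h3
  · simp only [ent, dvd_neg] at h
    have h1 := hpI.dvd_of_dvd_pow h
    rw [e1] at h1
    have h2 : p ∣ X - 48 := by exact_mod_cast h1
    exact hw 11 (X - 48) ((7 * (X - 24) ^ 2 + 7488) * 7 * ((X - 24) ^ 2 + 6336) *
      1369826131969) (by unfold wit; ring) h2
  · simp only [ent, dvd_neg] at h
    have h1 := hpI.dvd_of_dvd_pow h
    rw [e2] at h1
    have h2 : p ∣ 7 * (X - 24) ^ 2 + 7488 := by exact_mod_cast h1
    exact hw (11 * (X - 48)) (7 * (X - 24) ^ 2 + 7488) (7 * ((X - 24) ^ 2 + 6336) *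
      1369826131969) (by unfold wit; ring) h2
  · simp only [ent] at h
    rcases hpI.dvd_or_dvd h with h1 | h1
    · have h2 : p ∣ 7 := by exact_mod_cast h1
      exact hw (11 * (X - 48) * (7 * (X - 24) ^ 2 + 7488)) 7 (((X - 24) ^ 2 + 6336) *
        1369826131969) (by unfold wit; ring) h2
    · have h1 := hpI.dvd_of_dvd_pow h1
      rw [e2] at h1
      have h2 : p ∣ (X - 24) ^ 2 + 6336 := by exact_mod_cast h1
      exact hw (11 * (X - 48) * (7 * (X - 24) ^ 2 + 7488) * 7) ((X - 24) ^ 2 + 6336)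
        1369826131969 (by unfold wit; ring) h2
  · simp only [ent, cA, dvd_neg] at h
    have h2 : p ∣ 1369826131969 := by exact_mod_cast h
    exact hw (11 * (X - 48) * (7 * (X - 24) ^ 2 + 7488) * 7 * ((X - 24) ^ 2 + 6336))
      1369826131969 1 (by unfold wit; ring) h2
  · simp only [ent] at h
    exact absurd h hpI.not_dvd_one
  · simp only [ent] at h
    have h1 : IsUnit ((-1 : ℤ) ^ i) := (isUnit_one.neg).pow i
    exact absurd (isUnit_of_dvd_unit h h1) hpI.not_isUnit

theorem wit_le {X : ℕ} (hX : 48 < X) :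
    wit X ≤ 11 * 7495 * 7 * 6337 * 1369826131969 * X ^ 5 := by
  unfold wit
  have h1 : X - 48 ≤ X := Nat.sub_le _ _
  have h2 : X - 24 ≤ X := Nat.sub_le _ _
  have h3 : (X - 24) ^ 2 ≤ X ^ 2 := Nat.pow_le_pow_left h2 2
  have h4 : 1 ≤ X ^ 2 := Nat.one_le_pow _ _ (by omega)
  have h5 : 7 * (X - 24) ^ 2 + 7488 ≤ 7495 * X ^ 2 := by omega
  have h6 : (X - 24) ^ 2 + 6336 ≤ 6337 * X ^ 2 := by omega
  calc 11 * (X - 48) * (7 * (X - 24) ^ 2 + 7488) * 7 * ((X - 24) ^ 2 + 6336) * 1369826131969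
      ≤ 11 * X * (7495 * X ^ 2) * 7 * (6337 * X ^ 2) * 1369826131969 := by gcongr
    _ = 11 * 7495 * 7 * 6337 * 1369826131969 * X ^ 5 := by ring

theorem wit_pos {X : ℕ} (hX : 48 < X) : 0 < wit X := by
  unfold wit
  have : 0 < X - 48 := by omega
  positivity

/-- the radical of the product of the entries -/
def rad {n : ℕ} (x : Fin n → ℤ) : ℕ := ∏ p ∈ (∏ i, x i).natAbs.primeFactors, p

theorem rad_le {X e : ℕ} (hX : 48 < X) (he : X = 11 ^ e) (n : ℕ) :
    rad (fun i : Fin n => ent (X : ℤ) i) ≤ 11 * 7495 * 7 * 6337 * 1369826131969 * X ^ 5 := by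
  refine le_trans ?_ (wit_le hX)
  refine le_trans ?_ (Nat.le_of_dvd (wit_pos hX) (Nat.prod_primeFactors_dvd (wit X)))
  unfold rad
  refine Finset.prod_le_prod_of_subset_of_one_le' ?_ ?_
  · intro p hp
    have hp1 := Nat.prime_of_mem_primeFactors hp
    have hp2 := Nat.dvd_of_mem_primeFactors hp
    rw [Nat.mem_primeFactors]
    refine ⟨hp1, ?_, (wit_pos hX).ne'⟩
    have hp3 : (p : ℤ) ∣ ∏ i : Fin n, ent (X : ℤ) i := Int.natCast_dvd.mpr hp2
    obtain ⟨i, -, hi⟩ := (Nat.prime_iff_prime_int.mp hp1).exists_mem_finset_dvd hp3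
    exact prime_dvd_wit hX he hp1 i hi
  · intro p hp _
    exact (Nat.prime_of_mem_primeFactors hp).one_le

theorem adm_ent {X z : ℤ} (hz : X = 1 + cL * z) (hX : 48 < X) {n : ℕ} (hn : 6 ≤ n)
    (he : Even n) : Adm (fun i : Fin n => ent X i) := by
  refine ⟨fun i => ent_ne hX i, ?_, ?_⟩
  · intro i j hij
    rw [← Int.isCoprime_iff_gcd_eq_one]
    have hne : (i : ℕ) ≠ (j : ℕ) := fun h => hij (Fin.ext h)
    rcases lt_or_gt_of_ne hne with h | h
    · exact ent_cop hz _ _ h
    · exact (ent_cop hz _ _ h).symm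
  · obtain ⟨k, rfl⟩ : ∃ k, n = 6 + 2 * k := by
      obtain ⟨m, hm⟩ := he
      exact ⟨m - 3, by omega⟩
    rw [Fin.sum_univ_eq_sum_range (fun i => ent X i) (6 + 2 * k)]
    exact sum_ent X k


end Pool.Agent.TH96.NC
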